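import Pool.Agent.Helper57.SS.Goals

/-!
# Project SS, packet LF7: the limit autocorrelation is even and positive definite
-/

set_option autoImplicit false

namespace Pool.Agent.Helper15.SS

open MeasureTheory Filter Topology
open Pool.Agent.Helper57.SS

theorem gLF7 : Pool.Agent.Helper57.SS.G_LF7 := by
  intro hRPD hZP α _ μ _ T S R a b f g U Nj h φ r hL
  have hP : ∀ j, (∀ k, rr R μ (h j) (-k) = rr R μ (h j) k) ∧
      (∀ k, |rr R μ (h j) k| ≤ 1) ∧
      ∀ c : ℤ →₀ ℝ, 0 ≤ c.sum fun p u => c.sum fun q v => u * v * rr R μ (h j) (p - q) :=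
    fun j => hRPD hZP α μ R hL.hs.mR (h j) (hL.hh j)
  constructor
  · intro k
    have h1 := hL.hr (-k)
    have h2 := hL.hr k
    have h3 : (fun j => rr R μ (h j) (-k)) = fun j => rr R μ (h j) k :=
      funext fun j => (hP j).1 k
    rw [h3] at h1
    exact tendsto_nhds_unique h1 h2
  · intro c
    have ht : Tendsto (fun j => c.sum fun p u => c.sum fun q v => u * v * rr R μ (h j) (p - q)) U
        (𝓝 (c.sum fun p u => c.sum fun q v => u * v * r (p - q))) := by
      unfold Finsupp.sum
      refine tendsto_finsetSum _ fun p _ => ?_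
      refine tendsto_finsetSum _ fun q _ => ?_
      exact (hL.hr (p - q)).const_mul _
    exact ge_of_tendsto' ht fun j => (hP j).2.2 c

end Pool.Agent.Helper15.SS
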